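import Mathlib
import Pool.Agent.K4W.StmtsP

set_option autoImplicit false

/-! Row GSM of the squad K4W: the sum of a Gaussian. -/

namespace Pool.Agent.K4W.H94

open Pool.Agent.K4W MeasureTheory Set

/-- **GSM** -/
theorem gsm : GsmStmt := by
  intro T hT
  set g : ℝ → ℝ := fun x => Real.exp (-(Real.pi / T ^ 2) * x ^ 2) with hg
  have hb : 0 < Real.pi / T ^ 2 := div_pos Real.pi_pos (pow_pos hT 2)
  have anti : AntitoneOn g (Ici 0) := by
    intro x hx y _ hxy
    simp only [hg]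
    apply Real.exp_le_exp.2
    have h1 : x ^ 2 ≤ y ^ 2 := pow_le_pow_left₀ hx hxy 2
    nlinarith [mul_le_mul_of_nonneg_left h1 hb.le]
  have hint : IntegrableOn g (Ioi 0) := (integrable_exp_neg_mul_sq hb).integrableOn
  have nonneg : ∀ t ∈ Ioi (0 : ℝ), 0 ≤ g t := fun t _ => (Real.exp_pos _).le
  have hI : ∫ x in Ioi (0 : ℝ), g x = T / 2 := by
    have h1 := integral_gaussian_Ioi (Real.pi / T ^ 2)
    have h2 : Real.pi / (Real.pi / T ^ 2) = T ^ 2 := by
      field_simp
    rw [h2, Real.sqrt_sq hT.le] at h1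
    exact h1
  have hs0 : Summable (fun n : ℕ => g n) := anti.summable_of_integrableOn_Ioi_zero hint nonneg
  have hle := anti.tsum_add_one_le_integral hint nonneg
  rw [hI] at hle
  have hs1 : Summable (fun n : ℕ => g ((n + 1 : ℕ) : ℝ)) :=
    (summable_nat_add_iff (f := fun n : ℕ => g n) 1).2 hs0
  set f : ℤ → ℝ := fun k => Real.exp (-(Real.pi * (k : ℝ) ^ 2 / T ^ 2)) with hf
  have e1 : ∀ n : ℕ, f n = g n := by
    intro n
    simp only [hf, hg]
    congr 1
    push_cast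
    ring
  have e2 : ∀ n : ℕ, f (-(n + 1)) = g ((n + 1 : ℕ) : ℝ) := by
    intro n
    simp only [hf, hg]
    congr 1
    push_cast
    ring
  have hsp : Summable (fun n : ℕ => f n) := by
    simp only [e1]
    exact hs0
  have hsn : Summable (fun n : ℕ => f (-(n + 1))) := by
    simp only [e2]
    exact hs1
  refine ⟨Summable.of_nat_of_neg_add_one hsp hsn, ?_⟩
  rw [tsum_of_nat_of_neg_add_one hsp hsn]
  have h0 : ∑' n : ℕ, f n = f 0 + ∑' n : ℕ, f (n + 1 : ℕ) := by
    have := hsp.tsum_eq_zero_add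
    simpa using this
  have h3 : ∑' n : ℕ, f ((n + 1 : ℕ) : ℤ) ≤ T / 2 := by
    have : ∀ n : ℕ, f ((n + 1 : ℕ) : ℤ) = g ((n + 1 : ℕ) : ℝ) := fun n => e1 (n + 1)
    simp only [this]
    exact hle
  have h4 : ∑' n : ℕ, f (-(n + 1)) ≤ T / 2 := by
    simp only [e2]
    exact hle
  have h5 : f 0 = 1 := by
    simp [hf]
  rw [h0, h5]
  linarith

end Pool.Agent.K4W.H94
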