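import Mathlib
import Pool.Agent.K4W.StmtsM

set_option autoImplicit false

/-! Row MFP of the squad K4W: the fibres. -/

namespace Pool.Agent.K4W.H94

open Pool.Agent.K4W

/-- **MFP** -/
theorem mfp : MfpStmt := by
  intro n p s m q hp hq h0
  classical
  set B : Finset (Fin n) := Finset.univ.filter (fun i => p i = q) with hB
  set R : ℤ := ∏ k ∈ Finset.univ.filter (fun k => ¬ p k = q), (p k : ℤ) with hR
  have hq0 : (q : ℤ) ≠ 0 := by exact_mod_cast hq.ne_zero
  have hprodB : ∏ k ∈ B, (p k : ℤ) = (q : ℤ) ^ B.card := by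
    rw [Finset.prod_congr rfl (g := fun _ => (q : ℤ)) ?_, Finset.prod_const]
    intro k hk
    rw [(Finset.mem_filter.1 hk).2]
  have hall : ∏ k, (p k : ℤ) = (q : ℤ) ^ B.card * R := by
    rw [← hprodB]
    exact (Finset.prod_filter_mul_prod_filter_not Finset.univ (fun k => p k = q)
      (fun k => (p k : ℤ))).symm
  by_cases hne : B = ∅
  · rw [hne, Finset.sum_empty]
    exact dvd_zero _
  have hcard : 1 ≤ B.card := Finset.card_pos.2 (Finset.nonempty_iff_ne_empty.2 hne)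
  obtain ⟨j, hj⟩ : ∃ j, B.card = j + 1 := ⟨B.card - 1, by omega⟩
  have hin : ∀ i ∈ B, ∏ k ∈ Finset.univ.erase i, (p k : ℤ) = (q : ℤ) ^ j * R := by
    intro i hi
    have h1 := Finset.mul_prod_erase Finset.univ (fun k => (p k : ℤ)) (Finset.mem_univ i)
    rw [hall, hj, pow_succ, (Finset.mem_filter.1 hi).2] at h1
    have h2 : (q : ℤ) * ∏ k ∈ Finset.univ.erase i, (p k : ℤ) = (q : ℤ) * ((q : ℤ) ^ j * R) := by
      rw [h1]
      ring
    exact mul_left_cancel₀ hq0 h2
  have hout : ∀ i ∈ Finset.univ.filter (fun i => ¬ p i = q),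
      (q : ℤ) ^ (j + 1) ∣ s i * m i ^ 2 * ∏ k ∈ Finset.univ.erase i, (p k : ℤ) := by
    intro i hi
    apply Dvd.dvd.mul_left
    rw [← hj, ← hprodB]
    apply Finset.prod_dvd_prod_of_subset
    intro k hk
    rw [Finset.mem_erase]
    refine ⟨?_, Finset.mem_univ k⟩
    intro hki
    rw [hki] at hk
    exact (Finset.mem_filter.1 hi).2 (Finset.mem_filter.1 hk).2
  have hsum := Finset.sum_filter_add_sum_filter_not Finset.univ (fun i => p i = q)
    (fun i => s i * m i ^ 2 * ∏ k ∈ Finset.univ.erase i, (p k : ℤ))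
  rw [h0] at hsum
  have hS : ∑ i ∈ Finset.univ.filter (fun i => p i = q),
      s i * m i ^ 2 * ∏ k ∈ Finset.univ.erase i, (p k : ℤ) =
      (q : ℤ) ^ j * (R * ∑ i ∈ B, s i * m i ^ 2) := by
    rw [Finset.mul_sum, Finset.mul_sum]
    apply Finset.sum_congr rfl
    intro i hi
    rw [hin i hi]
    ring
  have hdv : (q : ℤ) ^ (j + 1) ∣ (q : ℤ) ^ j * (R * ∑ i ∈ B, s i * m i ^ 2) := by
    rw [← hS]
    have h2 := Finset.dvd_sum hout
    rw [← dvd_add_left h2, hsum]
    exact dvd_zero _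
  rw [pow_succ] at hdv
  have h3 := (mul_dvd_mul_iff_left (pow_ne_zero j hq0)).1 hdv
  have hqp : Prime (q : ℤ) := Nat.prime_iff_prime_int.1 hq
  rcases hqp.dvd_or_dvd h3 with h4 | h4
  · exfalso
    rw [hR, hqp.dvd_finset_prod_iff] at h4
    obtain ⟨k, hk, h5⟩ := h4
    have h6 : q ∣ p k := by exact_mod_cast h5
    exact (Finset.mem_filter.1 hk).2 ((Nat.prime_dvd_prime_iff_eq hq (hp k)).1 h6).symm
  · exact h4

end Pool.Agent.K4W.H94
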