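import Mathlib
import Pool.Agent.K4W.StmtsA
import Pool.Agent.K4W.StmtsW

set_option autoImplicit false

/-! Row AWE of the squad K4W: Weil's bound in terms of `Sc`, from the last row of block W. -/

namespace Pool.Agent.K4W.H94

open Pool.Agent.K4W

/-- **AWE** -/
theorem awe (wei : WeilStmt) : AweStmt := by
  intro p b m hp h5 hb
  exact wei p b m hp h5 hb

end Pool.Agent.K4W.H94
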